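import Pool.Agent.H94.PopovProof

namespace Pool.Agent.Results.MP_170294_an.NotExtremal

open Pool.Agent.H94.Popov

theorem result (n : ℕ) (h2 : 2 ≤ n) (h4 : n ≤ 4) :
    ∃ f : ℝ → ℝ, InK f ∧ bestE n (fun x => |x|) < bestE n f :=
  main n h2 h4

end Pool.Agent.Results.MP_170294_an.NotExtremal
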